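import Pool.Agent.W836.SH.Stm

set_option autoImplicit false

/-! # Removal in set families, and the case `o i = 0` -/

open scoped Classical

namespace Pool.Agent.W462.SH

open Pool.Agent.W836.SH

variable {ι : Type}

lemma not_mem_im {F : Finset (Finset ι)} {i : ι} {S : Finset ι}
    (h : S ∈ F.image (fun S => S.erase i)) : i ∉ S := by
  obtain ⟨T, -, rfl⟩ := Finset.mem_image.1 h
  exact Finset.notMem_erase i T

lemma det_zero {k : ℕ} (r : Fin k → ι) (S : Fin (k + 1) → Finset ι) (i : ι) (a : Fin k)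
    (ha : r a = i) (hS : ∀ j, i ∉ S j) : (IM r S).det = 0 := by
  apply Matrix.det_eq_zero_of_row_eq_zero a.succ
  intro j
  simp [IM, ha, hS j]

lemma IM_congr {k : ℕ} (r : Fin k → ι) (S T : Fin (k + 1) → Finset ι)
    (h : ∀ i j, r i ∈ S j ↔ r i ∈ T j) : IM r S = IM r T := by
  unfold IM
  congr 2
  funext i j
  simp only [h i j]

lemma preim {F : Finset (Finset ι)} {i : ι} {k : ℕ} {S : Fin k → Finset ι}
    (h : ∀ j, S j ∈ F.image (fun S => S.erase i)) :
    ∃ T : Fin k → Finset ι, (∀ j, T j ∈ F) ∧ ∀ j x, x ≠ i → (x ∈ T j ↔ x ∈ S j) := by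
  have h2 : ∀ j, ∃ T ∈ F, T.erase i = S j := fun j => Finset.mem_image.1 (h j)
  choose T hT hTS using h2
  refine ⟨T, hT, fun j x hx => ?_⟩
  rw [← hTS j, Finset.mem_erase]
  exact ⟨fun h => ⟨hx, h⟩, fun h => h.2⟩

lemma card_le (F : Finset (Finset ι)) (i : ι) :
    F.card ≤ (F.image (fun S => S.erase i)).card + (Zf i F).card := by
  have h1 : F.card = (F.filter (fun S => i ∉ S)).card + ((F.filter (fun S => i ∈ S)).image
      (fun S => S.erase i)).card := by
    rw [Finset.card_image_of_injOn]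
    · have := Finset.card_filter_add_card_filter_not (s := F) (p := fun S => i ∉ S)
      simp only [not_not] at this
      exact this.symm
    · intro S hS T hT h
      simp only [Finset.coe_filter, Set.mem_ofPred_eq] at hS hT
      have h' : S.erase i = T.erase i := h
      rw [← Finset.insert_erase hS.2, h', Finset.insert_erase hT.2]
  rw [h1, ← Finset.card_union_add_card_inter]
  apply Nat.add_le_add
  · apply Finset.card_le_card
    intro S hS
    rcases Finset.mem_union.1 hS with h | h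
    · obtain ⟨h, h'⟩ := Finset.mem_filter.1 h
      exact Finset.mem_image.2 ⟨S, h, Finset.erase_eq_of_notMem h'⟩
    · obtain ⟨T, hT, rfl⟩ := Finset.mem_image.1 h
      exact Finset.mem_image.2 ⟨T, (Finset.mem_filter.1 hT).1, rfl⟩
  · apply Finset.card_le_card
    intro S hS
    obtain ⟨h, h'⟩ := Finset.mem_inter.1 hS
    obtain ⟨h1, h2⟩ := Finset.mem_filter.1 h
    obtain ⟨T, hT, rfl⟩ := Finset.mem_image.1 h'
    obtain ⟨h3, h4⟩ := Finset.mem_filter.1 hT
    refine Finset.mem_filter.2 ⟨h1, h2, ?_⟩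
    rw [Finset.insert_erase h4]
    exact h3

theorem frem : S_FREM := by
  intro ι F i τ o
  refine ⟨card_le F i, fun ho ⟨hW, hV, hQ⟩ => ⟨?_, ?_, ?_⟩⟩
  · intro k r S l hS hl hl1 hdet
    by_cases hr : ∃ a, r a = i
    · obtain ⟨a, ha⟩ := hr
      rw [det_zero r S i a ha (fun j => not_mem_im (hS j))] at hdet
      simp at hdet
    · push Not at hr
      obtain ⟨T, hT, hTS⟩ := preim hS
      refine hW k r T l hT (fun a => ?_) hl1 ?_
      · rw [← hl a]
        refine Finset.sum_congr rfl fun j _ => ?_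
        simp only [hTS j (r a) (hr a)]
      · rw [IM_congr r T S (fun a j => hTS j (r a) (hr a))]
        exact hdet
  · intro k r S hS
    by_cases hr : ∃ a, r a = i
    · obtain ⟨a, ha⟩ := hr
      rw [det_zero r S i a ha (fun j => not_mem_im (hS j))]
      simp
    · push Not at hr
      obtain ⟨T, hT, hTS⟩ := preim hS
      rw [IM_congr r S T (fun a j => (hTS j (r a) (hr a)).symm)]
      exact hV k r T hT
  · intro a i' j S00 S10 S01 S11 h00 h10 h01 h11 m00 m10 m01 m11
    have hai : a ≠ i := fun h => not_mem_im h10 (h ▸ m10.1)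
    have hii : i' ≠ i := fun h => not_mem_im h01 (h ▸ m01.2)
    by_cases hj : j = i
    · subst hj
      exact ⟨fun h => absurd h.1 (not_mem_im h00), fun _ => ho⟩
    · obtain ⟨T00, t00, rfl⟩ := Finset.mem_image.1 h00
      obtain ⟨T10, t10, rfl⟩ := Finset.mem_image.1 h10
      obtain ⟨T01, t01, rfl⟩ := Finset.mem_image.1 h01
      obtain ⟨T11, t11, rfl⟩ := Finset.mem_image.1 h11
      simp only [Finset.mem_erase, ne_eq, hai, hii, hj, not_false_eq_true, true_and] at m00 m10 m01 m11 ⊢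
      exact hQ a i' j T00 T10 T01 T11 t00 t10 t01 t11 m00 m10 m01 m11

lemma IM_det (j i : ι) (A B C : Finset ι) (a b c d e f : ℝ)
    (ha : (if j ∈ A then (1 : ℝ) else 0) = a) (hb : (if j ∈ B then (1 : ℝ) else 0) = b)
    (hc : (if j ∈ C then (1 : ℝ) else 0) = c) (hd : (if i ∈ A then (1 : ℝ) else 0) = d)
    (he : (if i ∈ B then (1 : ℝ) else 0) = e) (hf : (if i ∈ C then (1 : ℝ) else 0) = f) :
    (IM ![j, i] ![A, B, C]).det = (b * f - c * e) - (a * f - c * d) + (a * e - b * d) := by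
  subst ha hb hc hd he hf
  have h : IM ![j, i] ![A, B, C] = !![1, 1, 1;
      (if j ∈ A then (1 : ℝ) else 0), (if j ∈ B then (1 : ℝ) else 0), (if j ∈ C then (1 : ℝ) else 0);
      (if i ∈ A then (1 : ℝ) else 0), (if i ∈ B then (1 : ℝ) else 0),
        (if i ∈ C then (1 : ℝ) else 0)] := by
    ext x y
    fin_cases x <;> fin_cases y <;> rfl
  rw [h, Matrix.det_fin_three]
  simp only [Matrix.of_apply, Matrix.cons_val', Matrix.cons_val_zero, Matrix.cons_val_one,
    Matrix.cons_val]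
  ring

lemma az_aux {F : Finset (Finset ι)} {o : ι → ℝ} {τ : ℝ} {i j : ι} (hτ : τ < 1 / 2)
    (hW : FW τ o F) (hi : o i = 0) {Y1 Y2 : Finset ι} (h1 : Y1 ∈ Zf i F) (h2 : Y2 ∈ Zf i F)
    (hj2 : j ∈ Y2) (hj1 : j ∉ Y1) : False := by
  obtain ⟨f1, n1, g1⟩ := Finset.mem_filter.1 h1
  obtain ⟨f2, n2, g2⟩ := Finset.mem_filter.1 h2
  have hji : j ≠ i := fun h => n2 (h ▸ hj2)
  have hij : i ≠ j := fun h => hji h.symm
  have a1 := hW 2 ![j, i] ![Y1, insert i Y2, insert i Y1] ![1, o j, -(o j)]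
    (by intro t; fin_cases t <;> simp [f1, g1, g2])
    (by
      intro t
      fin_cases t
      · simp [Fin.sum_univ_three, hj1, hj2, hji]
      · simp [Fin.sum_univ_three, n1, n2, hi])
    (by simp [Fin.sum_univ_three])
    (by
      rw [IM_det j i Y1 (insert i Y2) (insert i Y1) 0 1 0 0 1 1 (by simp [hj1]) (by simp [hj2])
        (by simp [hj1, hji]) (by simp [n1]) (by simp) (by simp)]
      norm_num)
  have a2 := hW 2 ![j, i] ![Y2, insert i Y2, insert i Y1] ![1, o j - 1, 1 - o j]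
    (by intro t; fin_cases t <;> simp [f2, g1, g2])
    (by
      intro t
      fin_cases t
      · simp [Fin.sum_univ_three, hj1, hj2, hji]
      · simp [Fin.sum_univ_three, n1, n2, hi])
    (by simp [Fin.sum_univ_three])
    (by
      rw [IM_det j i Y2 (insert i Y2) (insert i Y1) 1 1 0 0 1 1 (by simp [hj2]) (by simp [hj2])
        (by simp [hj1, hji]) (by simp [n2]) (by simp) (by simp)]
      norm_num)
  simp [Fin.sum_univ_three] at a1 a2
  have b1 : o j ≤ τ := by
    have e1 := le_max_left (o j) 0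
    have e2 := le_max_right (-(o j)) 0
    linarith
  have b2 : 1 - o j ≤ τ := by
    have e1 := le_max_left (1 - o j) 0
    have e2 := le_max_right (o j - 1) 0
    linarith
  linarith

theorem az0 : S_AZ0 := by
  intro ι F o τ i h0 hτ hF hi
  by_contra hc
  push Not at hc
  obtain ⟨Y1, h1, Y2, h2, hne⟩ := Finset.one_lt_card.1 hc
  have hex : ∃ j, (j ∈ Y2 ∧ j ∉ Y1) ∨ (j ∈ Y1 ∧ j ∉ Y2) := by
    by_contra hn
    push Not at hn
    apply hne
    ext j
    exact ⟨(hn j).2, (hn j).1⟩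
  obtain ⟨j, ⟨hj2, hj1⟩ | ⟨hj2, hj1⟩⟩ := hex
  · exact az_aux hτ hF.1 hi h1 h2 hj2 hj1
  · exact az_aux hτ hF.1 hi h2 h1 hj2 hj1

theorem main : S_FREM ∧ S_AZ0 := ⟨frem, az0⟩

end Pool.Agent.W462.SH
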